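import Pool.Agent.Lib.MP_b60633_nt.Final

/-!
# MP_b60633_nt: the irrationality exponent of `Γ(1/4)` is at most `10 ^ 15`
-/

set_option autoImplicit false

namespace Pool.Agent.Results.MP_b60633_nt.Measure

/-- `0 < |x - p / q| < 1 / q ^ μ` holds for infinitely many pairs of integers `(p, q)`, `q ≥ 1`. -/
def Adm (x μ : ℝ) : Prop :=
  {pq : ℤ × ℤ | 1 ≤ pq.2 ∧ 0 < |x - pq.1 / pq.2| ∧ |x - pq.1 / pq.2| < 1 / (pq.2 : ℝ) ^ μ}.Infinite

/-- The irrationality exponent of `x`: the supremum in `[0, ∞]` of the real `μ ≥ 0` with `Adm x μ`. -/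
noncomputable def irrExp (x : ℝ) : ENNReal :=
  sSup {m : ENNReal | ∃ μ : ℝ, 0 ≤ μ ∧ m = ENNReal.ofReal μ ∧ Adm x μ}

/-- The irrationality exponent of `Γ(1/4)` is at most `10 ^ 15`. -/
theorem result : irrExp (Real.Gamma (1 / 4)) ≤ 10 ^ 15 :=
  Pool.Agent.MPb60633.final_F5

end Pool.Agent.Results.MP_b60633_nt.Measure
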